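import Pool.Agent.H73.GWQ.Stmts

/-! Row MUQ of board `gwq`: a step is decoded by the message. -/

set_option autoImplicit false

open Classical

namespace GWQ

variable {ι G V : Type*} [Fintype ι] [Group G] (C : QCode ι G V)

theorem MUQ.len_full {F F' : List (ι × List ι)} (b : List ι)
    (h : F.map Prod.snd = F'.map Prod.snd) :
    (GWT.full F b).length = (GWT.full F' b).length := by
  induction F generalizing F' with
  | nil =>
    cases F' with
    | nil => rfl
    | cons f' F' => simp at h
  | cons f F ih =>
    cases F' with
    | nil => simp at h
    | cons f' F' =>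
      simp only [List.map_cons, List.cons.injEq] at h
      simp only [GWT.full, List.length_append, List.length_cons]
      rw [h.1, ih h.2]

theorem MUQ.W_append (w : ℕ → G) (c m : List ι) :
    W C w (c ++ m) = W C w m * vv C w c m.length := by
  induction c with
  | nil => simp [vv]
  | cons s c ih =>
    simp only [List.cons_append, W, vv, ih, List.length_append]
    rw [show c.length + m.length + 1 = m.length + c.length + 1 by omega]
    group

/-- the product of the letters of the top frame -/
theorem MUQ.W_top (w : ℕ → G) (f : ι × List ι) (F : List (ι × List ι)) (b : List ι) :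
    W C w (GWT.full (f :: F) b) = W C w (GWT.full F b) * C.c f.1 ^ 5 *
      tl C w f.2 (GWT.full F b).length := by
  show W C w (f.2 ++ f.1 :: GWT.full F b) = _
  rw [MUQ.W_append]
  simp only [W, List.length_cons, tl]
  group

theorem MUQ (h1 : UNIStmt C) (h2 : PUQStmt C) (h3 : INQStmt C) : MUQStmt C := by
  intro w x x' l l' hmask hmsg
  obtain ⟨hf, hok⟩ := h3 w l
  obtain ⟨hf', hok'⟩ := h3 w l'
  have hst : St C w (x :: l) = if Good C w x l then ((x, []) :: (St C w l).1, (St C w l).2)
    else (pop C w (GWT.ini (LB C (W C w l) x) x (St C w l).1).1
      (GWT.ini (LB C (W C w l) x) x (St C w l).1).2.1 (St C w l).2).2 := rfl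
  have hst' : St C w (x' :: l') = if Good C w x' l' then ((x', []) :: (St C w l').1, (St C w l').2)
    else (pop C w (GWT.ini (LB C (W C w l') x') x' (St C w l').1).1
      (GWT.ini (LB C (W C w l') x') x' (St C w l').1).2.1 (St C w l').2).2 := rfl
  rw [hst, hst']
  unfold msg at hmsg
  clear hst hst'
  generalize St C w l = S at *
  generalize St C w l' = S' at *
  obtain ⟨F, b⟩ := S
  obtain ⟨F', b'⟩ := S'
  simp only [GWT.mask, Prod.mk.injEq] at hmask
  obtain ⟨hF, rfl⟩ := hmask
  simp only at hf hf' hok hok' hmsg ⊢
  have hlen : l.length = l'.length := by
    rw [← hf, ← hf']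
    exact MUQ.len_full b hF
  by_cases hg : Good C w x l
  · by_cases hg' : Good C w x' l'
    · rw [if_pos hg, if_pos hg']
      simp only [GWT.mask, List.map_cons]
      rw [hF]
    · rw [if_pos hg, if_neg hg'] at hmsg
      cases hmsg
  · by_cases hg' : Good C w x' l'
    · rw [if_neg hg, if_pos hg'] at hmsg
      cases hmsg
    · rw [if_neg hg, if_neg hg'] at hmsg
      rw [if_neg hg, if_neg hg']
      simp only [Msg.bad.injEq] at hmsg
      obtain ⟨hlb, hini, hpop⟩ := hmsg
      have hlb' : LB C (W C w l) x ↔ LB C (W C w l') x' := by
        have := hlb
        rw [decide_eq_decide] at this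
        exact this
      by_cases hL : LB C (W C w l) x
      · have hL' := hlb'.1 hL
        cases F with
        | nil =>
          cases F' with
          | cons f' F' => simp at hF
          | nil =>
            have hll : l = l' := by
              rw [← hf, ← hf']
            subst hll
            have hxx := h1.1 _ x x' hL hL'
            subst hxx
            rfl
        | cons f F₁ =>
          cases F' with
          | nil => simp at hF
          | cons f' F₁' =>
            simp only [List.map_cons, List.cons.injEq] at hF
            simp only [GWT.ini, if_pos hL, if_pos hL', Option.some.injEq] at hini hpop ⊢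
            obtain ⟨hf2, hF1⟩ := hF
            have hff : f = f' := Prod.ext hini hf2
            subst hff
            have hk := MUQ.len_full b hF1
            have hW := MUQ.W_top C w f F₁ b
            have hW' := MUQ.W_top C w f F₁' b
            rw [hf] at hW
            rw [hf', ← hk] at hW'
            obtain ⟨o1, o2, o3⟩ := hok
            obtain ⟨p1, p2, p3⟩ := hok'
            have hxx : x = x' := by
              refine h1.2.2 (W C w (GWT.full F₁ b)) (W C w (GWT.full F₁' b))
                (tl C w f.2 (GWT.full F₁ b).length) f.1 x x' o1 p1 o2 ?_ ?_
              · rw [← hW]; exact hL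
              · rw [← hW']; exact hL'
            subst hxx
            exact h2 w F₁ F₁' _ b hF1 hpop
      · have hL' : ¬ LB C (W C w l') x' := fun h => hL (hlb'.2 h)
        have hi : ∀ (y : ι) (H : List (ι × List ι)) (P : Prop), ¬ P →
            GWT.ini P y H = (H, [y], none) := by
          intro y H P hP
          cases H with
          | nil => rfl
          | cons f H => simp [GWT.ini, hP]
        rw [hi x F _ hL, hi x' F' _ hL'] at hpop ⊢
        simp only at hpop ⊢
        have hR : RB C x (w (l.length + 1)) := by
          by_contra hR
          exact hg ⟨hL, hR⟩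
        have hR' : RB C x' (w (l.length + 1)) := by
          by_contra hR'
          apply hg'
          rw [hlen] at hR'
          exact ⟨hL', hR'⟩
        have hxx := h1.2.1 x x' _ hR hR'
        subst hxx
        exact h2 w F F' _ b hF hpop

end GWQ
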