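import Pool.Agent.H73.GWQ.Stmts2

/-! Row N3Q of board `gwq`: parallel segments. -/

set_option autoImplicit false

open Classical

namespace GWQ

section n3q

variable {G V : Type*} [Group G] (D : QM G V)

theorem N3Q.dpow (g x : G) (p q : ℤ) (n : ℕ) (h : q - p = n ∨ q - p = -(n : ℤ)) :
    D.d (x * g ^ p) (x * g ^ q) = D.nm (g ^ n) := by
  rw [D.inv]
  have e1 : D.d (g ^ p) (g ^ q) = D.d 1 (g ^ (q - p)) := by
    rw [← D.inv (g ^ p) 1 (g ^ (q - p)), mul_one, ← zpow_add]
    congr 2
    ring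
  rw [e1]
  unfold QM.nm
  rcases h with h | h
  · rw [h, zpow_natCast]
  · rw [h, ← D.inv (g ^ (n : ℤ)) 1 (g ^ (-(n : ℤ))), mul_one, ← zpow_add, add_neg_cancel, zpow_zero,
      zpow_natCast, D.comm]

theorem n3q (h4 : H4QStmt D) (h1 : N1QStmt D) : N3QStmt D := by
  intro g hg x i j s L m R hs hm hR0 hRL
  obtain ⟨hadd, -, -⟩ := h1 g hg
  have hk := hadd m (L - m)
  rw [Nat.add_sub_cancel' hm] at hk
  have hcast : ((L - m : ℕ) : ℤ) = (L : ℤ) - m := by
    push_cast [Nat.cast_sub hm]
    ring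
  have u1 : D.d (g ^ i) (g ^ (i + s * L)) = D.nm (g ^ L) := by
    have := N3Q.dpow D g 1 i (i + s * L) L (by
      rcases hs with hs | hs
      · left
        rw [hs]
        ring
      · right
        rw [hs]
        ring)
    simpa using this
  have u2 : D.d (g ^ i) (g ^ (i + s * m)) = D.nm (g ^ m) := by
    have := N3Q.dpow D g 1 i (i + s * m) m (by
      rcases hs with hs | hs
      · left
        rw [hs]
        ring
      · right
        rw [hs]
        ring)
    simpa using this
  have u3 : D.d (g ^ (i + s * m)) (g ^ (i + s * L)) = D.nm (g ^ (L - m)) := by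
    have := N3Q.dpow D g 1 (i + s * m) (i + s * L) (L - m) (by
      rw [hcast]
      rcases hs with hs | hs
      · left
        rw [hs]
        ring
      · right
        rw [hs]
        ring)
    simpa using this
  have v2 : D.d (x * g ^ j) (x * g ^ (j + m)) = D.nm (g ^ m) :=
    N3Q.dpow D g x j (j + m) m (by left; ring)
  have v3 : D.d (x * g ^ (j + m)) (x * g ^ (j + L)) = D.nm (g ^ (L - m)) :=
    N3Q.dpow D g x (j + m) (j + L) (L - m) (by left; rw [hcast]; ring)
  have hq := h4 (g ^ i) (g ^ (i + s * L)) (g ^ (i + s * m)) (x * g ^ (j + m))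
  have t1 := D.tri (g ^ i) (x * g ^ j) (x * g ^ (j + m))
  have t2 := D.tri (g ^ (i + s * L)) (x * g ^ (j + L)) (x * g ^ (j + m))
  have c1 := D.comm (g ^ (i + s * L)) (g ^ (i + s * m))
  have c2 := D.comm (x * g ^ (j + L)) (x * g ^ (j + m))
  omega

end n3q

end GWQ
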